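import Mathlib
import Pool.Agent.R38.BookP

/-!
# A unit veto interval graph without a midpoint proper representation

The graph is the book with three pages: three 4-cycles with a common edge. It has a representation
by intervals of length 6 (hence it is a UVI graph), but no representation which is both midpoint and
proper. The second statement is a case distinction found by a SAT solver; it is spelled out in
`Pool.Agent.R38.BookP`. It only uses that in a midpoint proper representation the left endpoints,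
the marks and the right endpoints come in the same order.
-/

set_option autoImplicit false

namespace Pool.Agent.Results.MP_230f06_co.UnitNotMidpointProper

/-- A veto interval representation of `G`: distinct triples `l a < v a < r a` such that distinct
vertices `a`, `b` are adjacent iff `v a < l b < r a < v b` or `v b < l a < r b < v a`. -/
structure IsRep {V : Type} (G : SimpleGraph V) (l v r : V → ℝ) : Prop where
  order : ∀ a, l a < v a ∧ v a < r a
  inj : Function.Injective (fun a => (l a, v a, r a))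
  adj : ∀ a b, a ≠ b → (G.Adj a b ↔
    (v a < l b ∧ l b < r a ∧ r a < v b) ∨ (v b < l a ∧ l a < r b ∧ r b < v a))

/-- The representation is unit: all intervals have the same length. -/
def IsUnit {V : Type} (l r : V → ℝ) : Prop := ∀ a b, r a - l a = r b - l b

/-- The representation is proper: no interval properly contains another one. -/
def IsProper {V : Type} (l r : V → ℝ) : Prop :=
  ∀ a b, ¬ Set.Icc (l b) (r b) ⊂ Set.Icc (l a) (r a)

/-- The representation is midpoint: every mark is the midpoint of its interval. -/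
def IsMidpoint {V : Type} (l v r : V → ℝ) : Prop := ∀ a, v a = (l a + r a) / 2

/-- A UVI graph. -/
def IsUVI {V : Type} (G : SimpleGraph V) : Prop := ∃ l v r : V → ℝ, IsRep G l v r ∧ IsUnit l r

/-- An MPVI graph. -/
def IsMPVI {V : Type} (G : SimpleGraph V) : Prop :=
  ∃ l v r : V → ℝ, IsRep G l v r ∧ IsMidpoint l v r ∧ IsProper l r

/-- The left endpoints of a unit representation with intervals of length 6. -/
def L : Fin 8 → ℕ := ![3, 7, 6, 8, 8, 2, 4, 12]

/-- The marks. -/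
def M : Fin 8 → ℕ := ![5, 11, 10, 13, 10, 3, 6, 16]

/-- adjacency in the graph -/
def adj (a b : Fin 8) : Prop :=
  (M a < L b ∧ L b < L a + 6 ∧ L a + 6 < M b) ∨ (M b < L a ∧ L a < L b + 6 ∧ L b + 6 < M a)

instance : DecidableRel adj := fun _ _ => inferInstanceAs (Decidable (_ ∨ _))

lemma order : ∀ a, L a < M a ∧ M a < L a + 6 := by decide

lemma inj : ∀ a b, L a = L b → M a = M b → a = b := by decide

/-- The book with three pages. -/
def G : SimpleGraph (Fin 8) where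
  Adj := adj
  symm := ⟨fun _ _ h => h.symm⟩
  loopless := ⟨fun a h => by
    have h1 := order a
    rcases h with h | h <;> omega⟩

lemma uvi : IsUVI G := by
  refine ⟨fun a => (L a : ℝ), fun a => (M a : ℝ), fun a => ((L a + 6 : ℕ) : ℝ), ⟨?_, ?_, ?_⟩, ?_⟩
  · intro a
    simp only [Nat.cast_lt]
    exact order a
  · intro a b h
    simp only [Prod.mk.injEq, Nat.cast_inj] at h
    exact inj a b h.1 h.2.1
  · intro a b _
    show adj a b ↔ _
    unfold adj
    simp only [Nat.cast_lt]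
  · intro a b
    push_cast
    ring

lemma proper_iff {l r l' r' : ℝ} (h : l ≤ r) (h1 : ¬ Set.Icc l' r' ⊂ Set.Icc l r)
    (hlt : l < l') (h' : l' ≤ r') : r < r' := by
  by_contra hcon
  apply h1
  rw [Set.ssubset_iff_subset_ne]
  refine ⟨Set.Icc_subset_Icc hlt.le (not_lt.mp hcon), fun he => ?_⟩
  have : l ∈ Set.Icc l' r' := by rw [he]; exact ⟨le_rfl, h⟩
  exact absurd this.1 (not_le.mpr hlt)

lemma proper_iff' {l r l' r' : ℝ} (h : l ≤ r) (h1 : ¬ Set.Icc l r ⊂ Set.Icc l' r')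
    (hlt : r < r') (h' : l' ≤ r') : l < l' := by
  by_contra hcon
  apply h1
  rw [Set.ssubset_iff_subset_ne]
  refine ⟨Set.Icc_subset_Icc (not_lt.mp hcon) hlt.le, fun he => ?_⟩
  have : r' ∈ Set.Icc l r := by rw [he]; exact ⟨h', le_rfl⟩
  exact absurd this.2 (not_le.mpr hlt)

/-- The facts used in the proof. -/
lemma mkH (l v r : Fin 8 → ℝ) (h1 : ∀ a, l a < v a ∧ v a < r a)
    (h2 : ∀ a b, adj a b → a ≠ b →
      (v a < l b ∧ l b < r a ∧ r a < v b) ∨ (v b < l a ∧ l a < r b ∧ r b < v a))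
    (h3 : ∀ a b, ¬ adj a b → a ≠ b → v a < l b → l b < r a → r a < v b → False)
    (plr : ∀ a b, l a < l b → r a < r b) (prl : ∀ a b, r a < r b → l a < l b)
    (plv : ∀ a b, l a < l b → v a < v b) (pvl : ∀ a b, v a < v b → l a < l b) :
    Pool.Agent.R38.BookProof.H (fun k => l (Fin.ofNat 8 k)) (fun k => v (Fin.ofNat 8 k))
      (fun k => r (Fin.ofNat 8 k)) where
  e0 := h2 0 1 (by decide) (by decide)
  e1 := h2 0 2 (by decide) (by decide)
  e2 := h2 0 3 (by decide) (by decide)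
  e3 := h2 0 4 (by decide) (by decide)
  e4 := h2 1 5 (by decide) (by decide)
  e5 := h2 1 6 (by decide) (by decide)
  e6 := h2 1 7 (by decide) (by decide)
  e7 := h2 2 5 (by decide) (by decide)
  e8 := h2 3 6 (by decide) (by decide)
  e9 := h2 4 7 (by decide) (by decide)
  n2_6 := h3 2 6 (by decide) (by decide)
  n2_7 := h3 2 7 (by decide) (by decide)
  n3_5 := h3 3 5 (by decide) (by decide)
  n3_7 := h3 3 7 (by decide) (by decide)
  n4_5 := h3 4 5 (by decide) (by decide)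
  n4_6 := h3 4 6 (by decide) (by decide)
  n5_3 := h3 5 3 (by decide) (by decide)
  n5_4 := h3 5 4 (by decide) (by decide)
  n6_2 := h3 6 2 (by decide) (by decide)
  n6_4 := h3 6 4 (by decide) (by decide)
  n7_2 := h3 7 2 (by decide) (by decide)
  n7_3 := h3 7 3 (by decide) (by decide)
  plr0_1 := plr 0 1
  plr1_0 := plr 1 0
  plr1_2 := plr 1 2
  plr1_4 := plr 1 4
  plr1_7 := plr 1 7
  plr2_1 := plr 2 1
  plr2_4 := plr 2 4
  plr3_1 := plr 3 1
  plr4_1 := plr 4 1
  plr4_3 := plr 4 3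
  plr5_0 := plr 5 0
  plr5_6 := plr 5 6
  plr6_0 := plr 6 0
  plr6_5 := plr 6 5
  plr6_7 := plr 6 7
  plr7_0 := plr 7 0
  plr7_1 := plr 7 1
  plr7_2 := plr 7 2
  plr7_5 := plr 7 5
  plv0_1 := plv 0 1
  plv0_2 := plv 0 2
  plv1_0 := plv 1 0
  plv1_4 := plv 1 4
  plv2_1 := plv 2 1
  plv2_3 := plv 2 3
  plv2_7 := plv 2 7
  plv3_1 := plv 3 1
  plv4_1 := plv 4 1
  plv4_2 := plv 4 2
  plv4_3 := plv 4 3
  plv4_5 := plv 4 5
  plv5_0 := plv 5 0
  plv5_3 := plv 5 3
  plv5_6 := plv 5 6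
  plv6_0 := plv 6 0
  plv6_4 := plv 6 4
  plv6_5 := plv 6 5
  plv6_7 := plv 6 7
  plv7_0 := plv 7 0
  plv7_1 := plv 7 1
  plv7_5 := plv 7 5
  prl0_1 := prl 0 1
  prl1_4 := prl 1 4
  prl1_6 := prl 1 6
  prl2_1 := prl 2 1
  prl2_3 := prl 2 3
  prl2_4 := prl 2 4
  prl2_7 := prl 2 7
  prl3_1 := prl 3 1
  prl3_4 := prl 3 4
  prl3_6 := prl 3 6
  prl4_1 := prl 4 1
  prl4_2 := prl 4 2
  prl4_5 := prl 4 5
  prl5_0 := prl 5 0
  prl5_6 := prl 5 6
  prl5_7 := prl 5 7
  prl6_0 := prl 6 0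
  prl6_5 := prl 6 5
  prl6_7 := prl 6 7
  prl7_0 := prl 7 0
  prl7_1 := prl 7 1
  prl7_5 := prl 7 5
  prl7_6 := prl 7 6
  pvl0_1 := pvl 0 1
  pvl0_7 := pvl 0 7
  pvl1_0 := pvl 1 0
  pvl1_2 := pvl 1 2
  pvl1_4 := pvl 1 4
  pvl1_7 := pvl 1 7
  pvl2_1 := pvl 2 1
  pvl2_3 := pvl 2 3
  pvl2_4 := pvl 2 4
  pvl2_6 := pvl 2 6
  pvl3_1 := pvl 3 1
  pvl4_1 := pvl 4 1
  pvl4_3 := pvl 4 3
  pvl5_0 := pvl 5 0
  pvl5_6 := pvl 5 6
  pvl6_0 := pvl 6 0
  pvl6_4 := pvl 6 4
  pvl6_5 := pvl 6 5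
  pvl6_7 := pvl 6 7
  pvl7_0 := pvl 7 0
  pvl7_1 := pvl 7 1
  pvl7_2 := pvl 7 2
  pvl7_5 := pvl 7 5
  u0_0 := (h1 0).1
  u0_1 := (h1 0).2
  u1_0 := (h1 1).1
  u1_1 := (h1 1).2
  u2_0 := (h1 2).1
  u2_1 := (h1 2).2
  u3_0 := (h1 3).1
  u3_1 := (h1 3).2
  u4_0 := (h1 4).1
  u4_1 := (h1 4).2
  u5_0 := (h1 5).1
  u5_1 := (h1 5).2
  u6_0 := (h1 6).1
  u6_1 := (h1 6).2
  u7_0 := (h1 7).1
  u7_1 := (h1 7).2

lemma notMPVI : ¬ IsMPVI G := by
  rintro ⟨l, v, r, ⟨h1, -, h⟩, hm, hp⟩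
  have h2 : ∀ a b, adj a b → a ≠ b →
      (v a < l b ∧ l b < r a ∧ r a < v b) ∨ (v b < l a ∧ l a < r b ∧ r b < v a) :=
    fun a b hab hne => (h a b hne).mp hab
  have h3 : ∀ a b, ¬ adj a b → a ≠ b → v a < l b → l b < r a → r a < v b → False :=
    fun a b hab hne e1 e2 e3 => hab ((h a b hne).mpr (Or.inl ⟨e1, e2, e3⟩))
  have hle : ∀ a, l a ≤ r a := fun a => ((h1 a).1.trans (h1 a).2).le
  have plr : ∀ a b, l a < l b → r a < r b := fun a b hab =>
    proper_iff (hle a) (hp a b) hab (hle b)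
  have prl : ∀ a b, r a < r b → l a < l b := fun a b hab =>
    proper_iff' (hle a) (hp b a) hab (hle b)
  have plv : ∀ a b, l a < l b → v a < v b := fun a b hab => by
    have := plr a b hab
    rw [hm a, hm b]; linarith
  have pvl : ∀ a b, v a < v b → l a < l b := fun a b hab => by
    by_contra hcon
    have h5 : l b ≤ l a := not_lt.mp hcon
    have h6 : r b ≤ r a := by
      by_contra h7
      exact hcon (prl a b (not_le.mp h7))
    rw [hm a, hm b] at hab
    linarith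
  exact Pool.Agent.R38.BookProof.L201 (mkH l v r h1 h2 h3 plr prl plv pvl)

/-- There is a UVI graph which is not an MPVI graph. -/
theorem result : ∃ G : SimpleGraph (Fin 8), IsUVI G ∧ ¬ IsMPVI G := ⟨G, uvi, notMPVI⟩

end Pool.Agent.Results.MP_230f06_co.UnitNotMidpointProper
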